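import Pool.Agent.W565.GP.LocCore
import Pool.Agent.W338.QS.Line

/-!
Project GP (owner helper188): `StTau → StResA → StLoc`.
-/

set_option autoImplicit false

namespace Pool.Agent.W565.GP

theorem gp_loc (h1 : Pool.Agent.W188.GP.StTau) (h2 : Pool.Agent.W188.GP.StResA) :
    Pool.Agent.W188.GP.StLoc :=
  loc_core h1 h2 Pool.Agent.W338.QS.qs_line.2.1

end Pool.Agent.W565.GP
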