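import Pool.Agent.W188.GP.Stm
import Pool.Agent.H388LH.ZG

/-!
Project GP (owner helper188): the value at `t₀` in terms of the values at the nodes, core part.
-/

set_option autoImplicit false

open Complex MeasureTheory Set Filter Topology

namespace Pool.Agent.W565.GP

open Pool.Agent.W188.GP Pool.Agent.W188.QS

/-! ### elementary estimates -/

theorem log_facts {T : ℝ} (hT : Real.exp 20 ≤ T) :
    20 ≤ Real.log T ∧ 1000 ≤ T ∧ Real.log T + 1 ≤ T / 2 ∧
    (257 * T ^ 2) * (9 * (1 + 16 * T)) * Real.exp (-(Real.log T) ^ 2) ≤ 1 := by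
  have h0 : (0 : ℝ) < T := (Real.exp_pos _).trans_le hT
  have hL : 20 ≤ Real.log T := (Real.le_log_iff_exp_le h0).mpr hT
  have he : (1000 : ℝ) ≤ Real.exp 20 := by
    have h1 : (2 : ℝ) ≤ Real.exp 1 := by
      have := Real.add_one_le_exp (1 : ℝ)
      linarith
    have h2 : Real.exp 20 = Real.exp 1 ^ 20 := by
      rw [← Real.exp_nat_mul]
      norm_num
    rw [h2]
    calc (1000 : ℝ) ≤ 2 ^ 20 := by norm_num
      _ ≤ Real.exp 1 ^ 20 := pow_le_pow_left₀ (by norm_num) h1 20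
  have hT1 : 1000 ≤ T := he.trans hT
  have hlog : Real.log T ≤ T / 4 := by
    have h1 := Real.add_one_le_exp (Real.log T / 2)
    have h2 : Real.exp (Real.log T / 2) ^ 2 = T := by
      rw [← Real.exp_nat_mul]
      have : ((2 : ℕ) : ℝ) * (Real.log T / 2) = Real.log T := by
        push_cast
        ring
      rw [this, Real.exp_log h0]
    have h3 : (Real.log T / 2 + 1) ^ 2 ≤ T :=
      (pow_le_pow_left₀ (by linarith) h1 2).trans h2.le
    nlinarith
  refine ⟨hL, hT1, by linarith, ?_⟩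
  have h3 : Real.exp (-(Real.log T) ^ 2) ≤ (T ^ 20)⁻¹ := by
    have h4 : Real.exp (-(Real.log T) ^ 2) ≤ Real.exp (-(20 * Real.log T)) := by
      apply Real.exp_le_exp.mpr
      nlinarith
    have h5 : Real.exp (-(20 * Real.log T)) = (T ^ 20)⁻¹ := by
      rw [Real.exp_neg]
      congr 1
      have : (20 : ℝ) * Real.log T = ((20 : ℕ) : ℝ) * Real.log T := by norm_num
      rw [this, Real.exp_nat_mul, Real.exp_log h0]
    rw [← h5]
    exact h4
  calc (257 * T ^ 2) * (9 * (1 + 16 * T)) * Real.exp (-(Real.log T) ^ 2) ≤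
      (257 * T ^ 2) * (9 * (1 + 16 * T)) * (T ^ 20)⁻¹ := by gcongr
    _ ≤ (257 * T ^ 2) * (9 * (17 * T)) * (T ^ 20)⁻¹ := by
        gcongr
        linarith
    _ = 39321 / T ^ 17 := by
        field_simp
        ring
    _ ≤ 1 := by
        rw [div_le_one (by positivity)]
        calc (39321 : ℝ) ≤ 1000 ^ 17 := by norm_num
          _ ≤ T ^ 17 := pow_le_pow_left₀ (by norm_num) hT1 17

theorem ZZ_le (t : ℝ) : ZZ t ≤ 9 * (1 + |t|) := by
  have := Pool.Agent.H388LH.zeta_growth' (s := cp t) (by simp [cp]; norm_num)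
    (by simp [cp]; norm_num)
  have h2 : (cp t).im = t := by simp [cp]
  rw [h2] at this
  exact this

/-- number of the nodes -/
theorem nd_card (h1 : StTau) {T : ℝ} (hT : 1000 ≤ T) (γ : ℝ) :
    ((nd γ (T / 2) (16 * T)).card : ℝ) ≤ 257 * T ^ 2 := by
  obtain ⟨hmono, -, -, hlam1, hder, -, -, -, -, -, -, hlam, -⟩ := h1
  have hvv : vv (16 * T) - vv (T / 2) ≤ 16 * T * (16 * T - T / 2) := by
    have hc : ContinuousOn vv (Icc (T / 2) (16 * T)) := fun x _ =>
      (hder x).continuousAt.continuousWithinAt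
    have := Convex.image_sub_le_mul_sub_of_deriv_le (convex_Icc (T / 2) (16 * T)) hc
      (fun x _ => (hder x).differentiableAt.differentiableWithinAt) (C := 16 * T)
      (fun x hx => by
        rw [interior_Icc] at hx
        rw [(hder x).deriv]
        have h2 := (hlam x (by linarith [hx.1])).2
        have h3 : Real.log x ≤ x := by
          have := Real.log_le_sub_one_of_pos (show 0 < x by linarith [hx.1])
          linarith
        have h4 : 0 ≤ lamE x := by linarith [hlam1 x]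
        have h5 : lamE x / (2 * Real.pi) ≤ lamE x :=
          div_le_self h4 (by linarith [Real.pi_gt_three])
        linarith [hx.2]) (T / 2) (left_mem_Icc.mpr (by linarith)) (16 * T)
      (right_mem_Icc.mpr (by linarith)) (by linarith)
    exact this
  unfold nd
  rw [Int.card_Ioc]
  have h2 : (⌊vv (16 * T) - γ⌋ : ℝ) ≤ vv (16 * T) - γ := Int.floor_le _
  have h3 : vv (T / 2) - γ - 1 < (⌊vv (T / 2) - γ⌋ : ℝ) := Int.sub_one_lt_floor _
  have h4 : ((⌊vv (16 * T) - γ⌋ - ⌊vv (T / 2) - γ⌋).toNat : ℝ) ≤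
      max ((⌊vv (16 * T) - γ⌋ : ℝ) - (⌊vv (T / 2) - γ⌋ : ℝ)) 0 := by
    have : (((⌊vv (16 * T) - γ⌋ - ⌊vv (T / 2) - γ⌋).toNat : ℤ) : ℝ) =
        max ((⌊vv (16 * T) - γ⌋ : ℝ) - (⌊vv (T / 2) - γ⌋ : ℝ)) 0 := by
      rw [Int.toNat_eq_max]
      push_cast
      rfl
    rw [← this]
    norm_cast
  refine h4.trans (max_le ?_ (by positivity))
  nlinarith

/-! ### the phase -/

theorem ww_eq (h1 : StTau) (hXX : ∀ t : ℝ, ‖XX (cp t)‖ = 1) (γ : ℝ) {t : ℝ} (ht : 100 ≤ t) :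
    ww (XX (cp 100) * cexp (2 * Real.pi * γ * I)) 1 (cp t) =
      cexp (((2 * (Real.pi * (γ - vv t)) : ℝ) : ℂ) * I) := by
  obtain ⟨-, -, -, -, -, -, -, -, -, -, hX, -, -⟩ := h1
  unfold ww
  rw [hX t ht, pow_one]
  have h0 : XX (cp 100) ≠ 0 := by
    intro h
    have := hXX 100
    rw [h, norm_zero] at this
    norm_num at this
  rw [mul_inv, ← Complex.exp_neg]
  have e : XX (cp 100) * cexp (2 * Real.pi * γ * I) *
      ((XX (cp 100))⁻¹ * cexp (-(2 * Real.pi * vv t * I))) =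
      cexp (2 * Real.pi * γ * I) * cexp (-(2 * Real.pi * vv t * I)) := by
    field_simp
  rw [e, ← Complex.exp_add]
  congr 1
  push_cast
  ring

theorem norm_one_sub_exp (x : ℝ) :
    ‖1 - cexp (((2 * x : ℝ) : ℂ) * I)‖ = 2 * |Real.sin x| := by
  have h1 : 1 - cexp (((2 * x : ℝ) : ℂ) * I) =
      -(2 * I * (Real.sin x : ℂ) * cexp ((x : ℂ) * I)) := by
    have h2 : ((Real.sin x : ℝ) : ℂ) = (cexp (-(x : ℂ) * I) - cexp ((x : ℂ) * I)) * I / 2 := by
      rw [Complex.ofReal_sin]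
      rfl
    rw [h2]
    have h3 : cexp (((2 * x : ℝ) : ℂ) * I) = cexp ((x : ℂ) * I) * cexp ((x : ℂ) * I) := by
      rw [← Complex.exp_add]
      congr 1
      push_cast
      ring
    have h4 : cexp (-(x : ℂ) * I) * cexp ((x : ℂ) * I) = 1 := by
      rw [← Complex.exp_add]
      simp
    rw [h3]
    have h5 : -(2 * I * ((cexp (-(x : ℂ) * I) - cexp ((x : ℂ) * I)) * I / 2) * cexp ((x : ℂ) * I)) =
        -(I * I) * (cexp (-(x : ℂ) * I) * cexp ((x : ℂ) * I) -
          cexp ((x : ℂ) * I) * cexp ((x : ℂ) * I)) := by ring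
    rw [h5, h4, I_mul_I]
    ring
  rw [h1, norm_neg, norm_mul, norm_mul, norm_mul, Complex.norm_exp_ofReal_mul_I, Complex.norm_I,
    Complex.norm_real, Real.norm_eq_abs]
  norm_num

theorem ww_one_iff (h1 : StTau) (hXX : ∀ t : ℝ, ‖XX (cp t)‖ = 1) (γ : ℝ) {t : ℝ}
    (ht : 100 ≤ t) : ww (XX (cp 100) * cexp (2 * Real.pi * γ * I)) 1 (cp t) = 1 ↔
      ∃ n : ℤ, vv t = n + γ := by
  rw [ww_eq h1 hXX γ ht, Complex.exp_eq_one_iff]
  have hpi : (Real.pi : ℂ) ≠ 0 := by exact_mod_cast Real.pi_ne_zero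
  constructor
  · rintro ⟨n, hn⟩
    refine ⟨-n, ?_⟩
    have h2 : ((2 * (Real.pi * (γ - vv t)) : ℝ) : ℂ) = ((n * (2 * Real.pi) : ℝ) : ℂ) := by
      apply mul_right_cancel₀ Complex.I_ne_zero
      rw [hn]
      push_cast
      ring
    have h3 : 2 * (Real.pi * (γ - vv t)) = n * (2 * Real.pi) := by exact_mod_cast h2
    have h4 : γ - vv t = n := by
      have := Real.pi_pos
      field_simp at h3
      linarith
    push_cast
    linarith
  · rintro ⟨n, hn⟩
    refine ⟨-n, ?_⟩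
    rw [hn]
    push_cast
    ring

theorem loc_core (h1 : StTau) (h2 : StResA) (hXX : ∀ t : ℝ, ‖XX (cp t)‖ = 1) : StLoc := by
  classical
  obtain ⟨C, T₀, h2⟩ := h2
  refine ⟨2 * (|C| + 1), max T₀ (Real.exp 20), ?_⟩
  intro T γ t₀ hT ht1 ht2 hne
  have hT0 : T₀ ≤ T := (le_max_left _ _).trans hT
  obtain ⟨hL, hT1, hL2, hbig⟩ := log_facts ((le_max_right _ _).trans hT)
  have h1' := h1
  obtain ⟨hmono, -, -, hlam1, -, htv, hvt, htmono, -, -, -, hlam, hnd⟩ := h1'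
  obtain ⟨c, hc⟩ : ∃ c : ℂ, c = XX (cp 100) * cexp (2 * Real.pi * γ * I) := ⟨_, rfl⟩
  have hc1 : ‖c‖ = 1 := by
    have e : (2 : ℂ) * Real.pi * γ * I = ((2 * Real.pi * γ : ℝ) : ℂ) * I := by push_cast; ring
    rw [hc, norm_mul, hXX, e, Complex.norm_exp_ofReal_mul_I, one_mul]
  have hiff : ∀ t : ℝ, 100 ≤ t → (ww c 1 (cp t) = 1 ↔ ∃ n : ℤ, vv t = n + γ) := by
    intro t ht
    rw [hc]
    exact ww_one_iff h1 hXX γ ht
  have hw : ww c 1 (cp t₀) ≠ 1 := by
    intro h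
    obtain ⟨n, hn⟩ := (hiff t₀ (by linarith)).mp h
    exact hne n hn
  obtain ⟨a, b, ha1, ha2, hb1, hb2, hres⟩ := h2 c T t₀ hc1 hT0 ht1 ht2 hw
  have hinj : Function.Injective (fun n : ℤ => tau (n + γ)) := by
    intro m n hmn
    have := htmono.injective hmn
    have h3 : (m : ℝ) = n := by linarith
    exact_mod_cast h3
  obtain ⟨F, hF⟩ : ∃ F : Finset ℤ, F = (nd γ (T / 2) (16 * T)).filter
    (fun n : ℤ => a < tau (n + γ) ∧ tau (n + γ) < b) := ⟨_, rfl⟩
  have hset : PP c 1 ∩ Ioo a b = ((F.image fun n : ℤ => tau (n + γ) : Finset ℝ) : Set ℝ) := by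
    ext t
    rw [Finset.coe_image, hF]
    constructor
    · rintro ⟨⟨h100, hw1⟩, hab⟩
      obtain ⟨n, hn⟩ := (hiff t h100.le).mp hw1
      have hn2 : tau (n + γ) = t := by rw [← hn, htv]
      refine ⟨n, ?_, hn2⟩
      rw [Finset.mem_coe, Finset.mem_filter, hnd, hn2]
      refine ⟨⟨by linarith [hab.1], by linarith [hab.2]⟩, hab.1, hab.2⟩
    · rintro ⟨n, hn, rfl⟩
      rw [Finset.mem_coe, Finset.mem_filter, hnd] at hn
      refine ⟨⟨by linarith [hn.2.1], ?_⟩, hn.2⟩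
      rw [hiff _ (by linarith [hn.2.1])]
      exact ⟨n, hvt _⟩
  rw [hset, finsum_mem_coe_finset, Finset.sum_image (fun _ _ _ _ h => hinj h)] at hres
  -- the terms
  obtain ⟨G, hG⟩ : ∃ G : ℤ → ℂ, ∀ n, G n = riemannZeta (cp (tau (n + γ))) *
      (Real.exp (-(tau (n + γ) - t₀) ^ 2) : ℂ) /
      ((lam (tau (n + γ)) : ℂ) * (tau (n + γ) - t₀ : ℝ)) := ⟨_, fun n => rfl⟩
  have hsumF : ∑ n ∈ F, riemannZeta (cp (tau (n + γ))) *
      (Real.exp (-(tau (n + γ) - t₀) ^ 2) : ℂ) /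
      ((lam (tau (n + γ)) : ℂ) * ((tau (n + γ) - t₀ : ℝ) * I)) = (∑ n ∈ F, G n) / I := by
    rw [Finset.sum_div]
    refine Finset.sum_congr rfl fun n _ => ?_
    rw [hG, div_div, mul_assoc (lam (tau (n + γ)) : ℂ)]
  rw [hsumF] at hres
  have hGb : ∀ n ∈ (nd γ (T / 2) (16 * T)).filter
      (fun n : ℤ => ¬ (a < tau (n + γ) ∧ tau (n + γ) < b)),
      ‖G n‖ ≤ 9 * (1 + 16 * T) * Real.exp (-(Real.log T) ^ 2) := by
    intro n hn
    rw [Finset.mem_filter, hnd] at hn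
    obtain ⟨⟨hn1, hn2⟩, hn3⟩ := hn
    rw [hG]
    set t := tau (n + γ) with ht
    have hd : Real.log T ≤ |t - t₀| := by
      by_cases hat : a < t
      · have hbt : b ≤ t := by
          by_contra hlt
          push Not at hlt
          exact hn3 ⟨hat, hlt⟩
        refine le_trans ?_ (le_abs_self _)
        linarith
      · push Not at hat
        refine le_trans ?_ (neg_le_abs _)
        linarith
    have hl : 1 ≤ lam t := by
      rw [← (hlam t (by linarith)).1]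
      exact hlam1 t
    rw [norm_div, norm_mul, norm_mul, Complex.norm_real, Complex.norm_real, Complex.norm_real,
      Real.norm_eq_abs, Real.norm_eq_abs, Real.norm_eq_abs, abs_of_pos (Real.exp_pos _),
      abs_of_pos (by linarith : (0 : ℝ) < lam t)]
    have hZ : ‖riemannZeta (cp t)‖ ≤ 9 * (1 + 16 * T) := by
      refine (ZZ_le t).trans ?_
      rw [abs_of_pos (by linarith)]
      linarith
    have hE : Real.exp (-(t - t₀) ^ 2) ≤ Real.exp (-(Real.log T) ^ 2) := by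
      apply Real.exp_le_exp.mpr
      have : (Real.log T) ^ 2 ≤ |t - t₀| ^ 2 := pow_le_pow_left₀ (by linarith) hd 2
      rw [sq_abs] at this
      linarith
    have hden : 1 ≤ lam t * |t - t₀| := by nlinarith
    refine (div_le_self (by positivity) hden).trans ?_
    exact mul_le_mul hZ hE (Real.exp_pos _).le (by linarith)
  have hrest : ‖∑ n ∈ (nd γ (T / 2) (16 * T)).filter
      (fun n : ℤ => ¬ (a < tau (n + γ) ∧ tau (n + γ) < b)), G n‖ ≤ 1 := by
    refine (norm_sum_le _ _).trans ((Finset.sum_le_card_nsmul _ _ _ hGb).trans ?_)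
    rw [nsmul_eq_mul]
    refine le_trans ?_ hbig
    rw [mul_assoc (257 * T ^ 2)]
    refine mul_le_mul_of_nonneg_right ?_ (by positivity)
    refine le_trans ?_ (nd_card h1 hT1 γ)
    exact_mod_cast Finset.card_filter_le _ _
  have hsplit : ∑ n ∈ F, G n = ∑ n ∈ nd γ (T / 2) (16 * T), G n -
      ∑ n ∈ (nd γ (T / 2) (16 * T)).filter
        (fun n : ℤ => ¬ (a < tau (n + γ) ∧ tau (n + γ) < b)), G n := by
    rw [hF, ← Finset.sum_filter_add_sum_filter_not (nd γ (T / 2) (16 * T))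
      (fun n : ℤ => a < tau (n + γ) ∧ tau (n + γ) < b)]
    ring
  have hSF : ‖∑ n ∈ F, G n‖ ≤ ‖∑ n ∈ nd γ (T / 2) (16 * T), G n‖ + 1 := by
    rw [hsplit]
    exact (norm_sub_le _ _).trans (by linarith)
  -- the value at `t₀`
  have hw1 : 1 - ww c 1 (cp t₀) ≠ 0 := fun h => hw (sub_eq_zero.mp h).symm
  have hnorm : ‖1 - ww c 1 (cp t₀)‖ = 2 * |Real.sin (Real.pi * (vv t₀ - γ))| := by
    rw [hc, ww_eq h1 hXX γ (by linarith), norm_one_sub_exp]
    have : Real.pi * (γ - vv t₀) = -(Real.pi * (vv t₀ - γ)) := by ring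
    rw [this, Real.sin_neg, abs_neg]
  have hval : ‖riemannZeta (cp t₀) / (1 - ww c 1 (cp t₀))‖ ≤
      |C| + (‖∑ n ∈ nd γ (T / 2) (16 * T), G n‖ + 1) := by
    have e : riemannZeta (cp t₀) / (1 - ww c 1 (cp t₀)) =
        (riemannZeta (cp t₀) / (1 - ww c 1 (cp t₀)) + (∑ n ∈ F, G n) / I) -
          (∑ n ∈ F, G n) / I := by ring
    rw [e]
    refine (norm_sub_le _ _).trans ?_
    have h5 : ‖(∑ n ∈ F, G n) / I‖ = ‖∑ n ∈ F, G n‖ := by
      rw [norm_div, Complex.norm_I, div_one]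
    rw [h5]
    have := le_abs_self C
    linarith
  have hZZ : ZZ t₀ = 2 * |Real.sin (Real.pi * (vv t₀ - γ))| *
      ‖riemannZeta (cp t₀) / (1 - ww c 1 (cp t₀))‖ := by
    rw [← hnorm, ← norm_mul, mul_div_cancel₀ _ hw1]
    rfl
  have hsin : |Real.sin (Real.pi * (vv t₀ - γ))| ≤ 1 := Real.abs_sin_le_one _
  have hsin0 : 0 ≤ |Real.sin (Real.pi * (vv t₀ - γ))| := abs_nonneg _
  have hfin : ZZ t₀ ≤ 2 * |Real.sin (Real.pi * (vv t₀ - γ))| *
      (|C| + (‖∑ n ∈ nd γ (T / 2) (16 * T), G n‖ + 1)) := by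
    rw [hZZ]
    exact mul_le_mul_of_nonneg_left hval (by positivity)
  have hGs : ∑ n ∈ nd γ (T / 2) (16 * T), G n = ∑ n ∈ nd γ (T / 2) (16 * T),
      riemannZeta (cp (tau (n + γ))) * (Real.exp (-(tau (n + γ) - t₀) ^ 2) : ℂ) /
        ((lam (tau (n + γ)) : ℂ) * (tau (n + γ) - t₀ : ℝ)) :=
    Finset.sum_congr rfl fun n _ => hG n
  rw [← hGs]
  have hC := abs_nonneg C
  nlinarith

end Pool.Agent.W565.GP
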